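import Mathlib

set_option autoImplicit false
open MeasureTheory

namespace Pool.Agent.Results.MP_d52620_an.Counter

/-- Foelner's condition. -/
def Amenable (G : Type) [Group G] : Prop :=
  ∀ (S : Finset G) (ε : ℝ), 0 < ε → ∃ F : Finset G, F.Nonempty ∧
    ∀ s ∈ S, (((fun g => s * g) '' (F : Set G) \ (F : Set G)).ncard : ℝ) ≤ ε * F.card

open DihedralGroup

/-- sign character of the infinite dihedral group -/
def sg : DihedralGroup 0 → ℤˣ
  | r _ => 1
  | sr _ => -1

/-- translation part -/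
def tr : DihedralGroup 0 → ℤ
  | r i => i
  | sr i => i

lemma sg_mul (g h : DihedralGroup 0) : sg (g * h) = sg g * sg h := by
  cases g <;> cases h <;> simp [sg]

lemma tr_mul (g h : DihedralGroup 0) : tr (g * h) = tr g * sg h + tr h := by
  rcases g with (a : ℤ) | (a : ℤ) <;> rcases h with (b : ℤ) | (b : ℤ)
  · change a + b = a * 1 + b; ring
  · change b - a = a * -1 + b; ring
  · change a + b = a * 1 + b; ring
  · change b - a = a * -1 + b; ring

lemma amen : Amenable (DihedralGroup 0) := by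
  classical
  intro S ε hε
  obtain ⟨K, hK⟩ := (S.finite_toSet.image fun g => (tr g).natAbs).bddAbove
  obtain ⟨n, hn⟩ := exists_nat_ge (4 * (K : ℝ) / ε)
  let B : ℤ → ℤ → Finset (DihedralGroup 0) := fun a b =>
    (Finset.Icc a b).image (fun i : ℤ => r i) ∪ (Finset.Icc a b).image (fun i : ℤ => sr i)
  have hB : ∀ a b g, g ∈ B a b ↔ a ≤ tr g ∧ tr g ≤ b := by
    intro a b g
    cases g <;> simp [B, tr]
  have hc : ∀ a b, (B a b).card ≤ 2 * (b + 1 - a).toNat := by
    intro a b
    refine (Finset.card_union_le _ _).trans ?_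
    have h1 := Finset.card_image_le (s := Finset.Icc a b) (f := fun i : ℤ => (r i : DihedralGroup 0))
    have h2 := Finset.card_image_le (s := Finset.Icc a b) (f := fun i : ℤ => (sr i : DihedralGroup 0))
    rw [Int.card_Icc] at h1 h2
    omega
  have hc2 : n ≤ (B (-n) n).card := by
    have h1 := Finset.card_image_of_injective (Finset.Icc (-(n : ℤ)) n)
      (f := fun i : ℤ => (r i : DihedralGroup 0)) (fun a b h => by injection h)
    rw [Int.card_Icc] at h1
    have h2 := Finset.card_le_card (Finset.subset_union_left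
      (s₁ := (Finset.Icc (-(n : ℤ)) n).image (fun i : ℤ => (r i : DihedralGroup 0)))
      (s₂ := (Finset.Icc (-(n : ℤ)) n).image (fun i : ℤ => sr i)))
    simp only [B]
    omega
  refine ⟨B (-n) n, ⟨1, (hB _ _ _).2 (by change -(n : ℤ) ≤ 0 ∧ (0 : ℤ) ≤ n; omega)⟩, fun s hs => ?_⟩
  have h1 : (tr s).natAbs ≤ K := hK ⟨s, hs, rfl⟩
  have h2 : (fun g => s * g) '' (B (-n) n : Set _) \ (B (-n) n : Set _) ⊆
      ((B (-n - K) (-n - 1) ∪ B (n + 1) (n + K) : Finset _) : Set _) := by
    rintro _ ⟨⟨g, hg, rfl⟩, hg'⟩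
    simp only [Finset.mem_coe, Finset.mem_union, hB, tr_mul] at hg hg' ⊢
    rcases Int.units_eq_one_or (sg g) with e | e <;> simp only [e] at hg' ⊢ <;> push_cast at hg' ⊢ <;>
      omega
  have h3 := Set.ncard_le_ncard h2 (Finset.finite_toSet _)
  rw [Set.ncard_coe_finset] at h3
  have h4 := Finset.card_union_le (B (-n - K) (-n - 1)) (B (n + 1) (n + K))
  have h5 := hc (-n - K) (-n - 1)
  have h6 := hc (n + 1) (n + K)
  have h7 : ((fun g => s * g) '' (B (-n) n : Set _) \ (B (-n) n : Set _)).ncard ≤ 4 * K := by omega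
  have h8 : (n : ℝ) ≤ (B (-n) n).card := by exact_mod_cast hc2
  rw [div_le_iff₀ hε] at hn
  calc _ ≤ ((4 * K : ℕ) : ℝ) := by exact_mod_cast h7
    _ ≤ ε * n := by push_cast; linarith
    _ ≤ _ := by gcongr

theorem result : ∃ (G : Type) (_ : Group G) (S : Finset G) (M : Type) (_ : MetricSpace M)
    (_ : CompactSpace M) (_ : MeasurableSpace M) (_ : BorelSpace M) (α : G →* (M ≃ₜ M))
    (c : G → C(M, ℝ)),
    Amenable G ∧ Subgroup.closure (S : Set G) = ⊤ ∧ (∀ s ∈ S, s⁻¹ ∈ S) ∧ 1 ∉ S ∧
    (∀ g h x, c (g * h) x = c g (α h x) + c h x) ∧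
    (∀ μ : Measure M, IsProbabilityMeasure μ → (∀ g, μ.map (α g) = μ) → ∀ g, ∫ x, c g x ∂μ = 0) ∧
    ¬ ∀ ε : ℝ, 0 < ε → ∃ u : C(M, ℝ), ∀ s ∈ S, ∀ x, |c s x - (u (α s x) - u x)| ≤ ε := by
  classical
  let _ : MetricSpace Bool := TopologicalSpace.metrizableSpaceMetric _
  let φ : DihedralGroup 0 → Bool → Bool := fun g x => if sg g = 1 then x else !x
  have hφ : ∀ g x, φ g (φ g x) = x := fun g x => by simp only [φ]; split_ifs <;> simp
  let α : DihedralGroup 0 →* (Bool ≃ₜ Bool) := MonoidHom.mk'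
    (fun g => ⟨⟨φ g, φ g, hφ g, hφ g⟩, continuous_of_discreteTopology,
      continuous_of_discreteTopology⟩)
    (fun g h => by
      ext x
      change φ (g * h) x = φ g (φ h x)
      cases g <;> cases h <;> simp [φ, sg])
  have hα : ∀ g x, α g x = φ g x := fun _ _ => rfl
  refine ⟨DihedralGroup 0, inferInstance, {r 1, r (-1), sr 0}, Bool, inferInstance, inferInstance,
    inferInstance, inferInstance, α,
    fun g => ⟨fun x => (tr g : ℝ) * (if x then 1 else -1), continuous_of_discreteTopology⟩,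
    amen, ?_, by decide, by decide, ?_, ?_, ?_⟩
  · rw [eq_top_iff]
    have h0 : ∀ g ∈ ({r 1, r (-1), sr 0} : Finset (DihedralGroup 0)), g ∈ Subgroup.closure
        (({r 1, r (-1), sr 0} : Finset (DihedralGroup 0)) : Set (DihedralGroup 0)) :=
      fun g hg => Subgroup.subset_closure hg
    have h1 : ∀ i : ℤ, (r i : DihedralGroup 0) ∈ Subgroup.closure
        (({r 1, r (-1), sr 0} : Finset (DihedralGroup 0)) : Set (DihedralGroup 0)) := by
      intro i
      have := Subgroup.zpow_mem _ (h0 (r 1) (by simp)) i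
      rwa [r_one_zpow] at this
    rintro (i | i) -
    · exact h1 i
    · have := Subgroup.mul_mem _ (h0 (sr 0) (by simp)) (h1 i)
      rwa [sr_mul_r, zero_add] at this
  · intro g h x
    simp only [ContinuousMap.coe_mk, tr_mul, hα, φ]
    cases h <;> cases x <;> simp [sg] <;> ring
  · intro μ _ hμ g
    have h1 := congrArg (fun ν : Measure Bool => ν {true}) (hμ (sr 0))
    rw [Measure.map_apply (α (sr 0)).continuous.measurable (measurableSet_singleton _)] at h1
    have e : (α (sr 0)) ⁻¹' {true} = {false} := by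
      ext x; cases x <;> simp [hα, φ, sg]
    rw [e] at h1
    simp only [ContinuousMap.coe_mk]
    rw [integral_fintype Integrable.of_finite]
    simp [Measure.real, h1]
  · intro h
    obtain ⟨u, hu⟩ := h (1 / 2) (by norm_num)
    have := hu (r 1) (by simp) true
    have e : tr (r 1) = 1 := rfl
    simp [hα, φ, sg, e] at this
    norm_num at this

end Pool.Agent.Results.MP_d52620_an.Counter
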